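import Pool.Agent.H91.RF.TargetsR
import Pool.Agent.H4.RF.EXPJ
import Pool.Agent.H36.RD.YC

/-!
# [EXC] over a positive base level the first component expands faster than `c 0`
-/

open MeasureTheory Set Filter Topology Metric
open Pool.Agent.H91.RD Pool.Agent.H91.RF

namespace Pool.Agent.H42.RF.EXC

theorem pf_EXC (hY : T_YEX) (hC : T_YCMP) (hS : T_SUBP) (hE : T_EXPB) : T_EXC := by
  intro N f K J b c y hN hR hf hT m hm hmb
  have hJ := hT.J0
  have hb1 : b 1 ≤ 1 := by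
    have key : ∀ k i, i + k = J → b i ≤ 1 := by
      intro k
      induction k with
      | zero => intro i hi; have : i = J := by omega
                rw [this, hT.bJ]
      | succ k ih => intro i hi; linarith [ih (i + 1) (by omega), hT.lt i (by omega)]
    exact key (J - 1) 1 (by omega)
  have hb0 : 0 < b 1 := hm.trans hmb
  have hc := (hT.ext 0 hJ).cpos
  have hz : f (b 1) = 0 := hT.zer 1 (by omega)
  have hisy : IsYb f (b 1) (c 0) (y 0) := (hT.ext 0 hJ).isy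
  obtain ⟨δ1, hδ1, hle, hnear⟩ := hT.near 0 hJ
  rw [hT.b0] at hle
  simp only [zero_add] at hle hnear
  have hpos0 : ∀ τ ∈ Ioo 0 (b 1), 0 < y 0 τ := by
    have := hT.pos 0 hJ
    rw [hT.b0] at this
    simpa using this
  -- lower bound of `y 0`
  obtain ⟨μ, hμ, hlow⟩ : ∃ μ > 0, ∀ τ ∈ Icc (δ1 / 2) (b 1 - m), μ ≤ y 0 τ := by
    rcases (Icc (δ1 / 2) (b 1 - m)).eq_empty_or_nonempty with h | h
    · exact ⟨1, one_pos, fun τ hτ => by rw [h] at hτ; exact absurd hτ (notMem_empty τ)⟩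
    · have hcont : ContinuousOn (y 0) (Icc (δ1 / 2) (b 1 - m)) :=
        hisy.2.1.mono (Icc_subset_Icc (by linarith) (by linarith))
      obtain ⟨τ0, hτ0, hmin⟩ := isCompact_Icc.exists_isMinOn h hcont
      exact ⟨y 0 τ0, hpos0 τ0 ⟨by linarith [hτ0.1], by linarith [hτ0.2]⟩, fun τ hτ => hmin hτ⟩
  set q := √(2 * K) with hq
  have hq0 : 0 ≤ q := Real.sqrt_nonneg _
  set δ := μ / (4 * (q + 1)) with hδ
  have hδ0 : 0 < δ := by positivity
  have hδq : 2 * δ * q < μ := by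
    have h1 : δ * (4 * (q + 1)) = μ := by
      rw [hδ]; field_simp
    nlinarith
  obtain ⟨y', hy'⟩ := hY f K (b 1) (c 0 + 2 * δ) hf hb0 hb1 hz (by linarith)
  have hcmp := hC f K (b 1) hf hb0 hb1 hz (c 0) (c 0 + 2 * δ) (y 0) y' hc.le (by linarith) hisy hy'
  have hn1 := Pool.Agent.H36.RD.pos_near (b' := b 1 - δ1) hle hnear hy'
  have hpos : ∀ τ ∈ Ioc 0 (b 1 - m), 0 < y' τ := by
    intro τ hτ
    rcases lt_or_ge τ (δ1 / 2) with h | h
    · exact hn1 τ ⟨hτ.1, by linarith⟩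
    · have h1 := (hcmp τ ⟨hτ.1.le, by linarith [hτ.2]⟩).2
      have h2 := hlow τ ⟨h, hτ.2⟩
      have h3 : (c 0 + 2 * δ - c 0) * q = 2 * δ * q := by ring
      rw [← hq, h3] at h1
      linarith
  refine ⟨δ, hδ0, fun ε hε => ?_⟩
  obtain ⟨ℓ, L, R0, a1, a2, a3, a4, a5, hv⟩ := Pool.Agent.H4.RF.EXPJ.step hS hE hN (c' := c 0 + δ)
    (m := m) hf hb0 hb1 hz ⟨δ1, hδ1, hnear⟩ (by linarith) (by linarith) hm.le hmb hy' hpos hε
  exact ⟨ℓ, L, R0, a1, a3, a2, a4, a5, hv⟩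

end Pool.Agent.H42.RF.EXC
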