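import Pool.Agent.H42.RF.FTLa
import Pool.Agent.H84.RF.VACf
import Pool.Agent.H91.RF.TargetsR

/-!
# MP_609556_an, full answer: module FTL
-/

open MeasureTheory Set Filter Topology Metric
open Pool.Agent.H29.TF (hk P)
open Pool.Agent.H91.RD Pool.Agent.H91.RF
open Pool.Agent.H84.RF.VAC

namespace Pool.Agent.H42.RF.FTL

variable {N : ℕ}

/-- the limit has `-∂_e v = τ v_t` if this holds at the origin -/
theorem planarG {cc C τ : ℝ} {v vt : ℝ → E N → ℝ} {e : E N} (hv : Vc0 cc C v vt)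
    (hrep : ∀ s t, s < t → t ≤ 0 → ∀ x, Integrable (fun y => hk (t - s) (x - y) * -dx v e s y) ∧
      -dx v e t x = Real.exp (cc ^ 2 / 4 * (t - s)) * ∫ y, hk (t - s) (x - y) * -dx v e s y)
    (hge : ∀ t ≤ 0, ∀ x, τ * vt t x ≤ -dx v e t x) (h0 : -dx v e 0 0 ≤ τ * vt 0 0) :
    ∀ t ≤ 0, ∀ x, -dx v e t x = τ * vt t x := by
  have hneg : ∀ s < 0, ∀ x, -dx v e s x = τ * vt s x := by
    intro s hs
    have hs0 : 0 < 0 - s := by linarith
    obtain ⟨i1, r1⟩ := hrep s 0 hs le_rfl 0
    obtain ⟨i2, r2⟩ := hv.anct.rep s 0 hs le_rfl 0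
    have hc1 : Continuous (fun y => -dx v e s y) :=
      (((hv.c1 s hs.le).continuous_fderiv (by norm_num)).clm_apply continuous_const).neg
    have hc2 : Continuous (fun y => vt s y) := by
      have : ContinuousOn (fun y : E N => vt s y) univ :=
        hv.ct.comp (f := fun y : E N => (s, y)) (by fun_prop) fun y _ =>
          ⟨by have := hs.le; simpa using this, mem_univ _⟩
      exact continuousOn_univ.1 this
    have hkc : Continuous (fun y : E N => hk (0 - s) (0 - y)) :=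
      (Pool.Agent.H29.TF.continuous_hk (0 - s)).comp (by fun_prop)
    have hi : Integrable (fun y => hk (0 - s) (0 - y) * (-dx v e s y - τ * vt s y)) := by
      have := i1.sub (i2.const_mul τ)
      refine this.congr (Eventually.of_forall fun y => ?_)
      show hk (0 - s) (0 - y) * -dx v e s y - τ * (hk (0 - s) (0 - y) * vt s y) = _
      ring
    have hz : ∫ y, hk (0 - s) (0 - y) * (-dx v e s y - τ * vt s y) = 0 := by
      have e1 : ∫ y, hk (0 - s) (0 - y) * (-dx v e s y - τ * vt s y) =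
          (∫ y, hk (0 - s) (0 - y) * -dx v e s y) - τ * ∫ y, hk (0 - s) (0 - y) * vt s y := by
        rw [← integral_const_mul, ← integral_sub i1 (i2.const_mul τ)]
        refine integral_congr_ae (Eventually.of_forall fun y => ?_)
        show _ = hk (0 - s) (0 - y) * -dx v e s y - τ * (hk (0 - s) (0 - y) * vt s y)
        ring
      have hE := Real.exp_pos (cc ^ 2 / 4 * (0 - s))
      have h3 : Real.exp (cc ^ 2 / 4 * (0 - s)) *
          ((∫ y, hk (0 - s) (0 - y) * -dx v e s y) - τ * ∫ y, hk (0 - s) (0 - y) * vt s y) ≤ 0 := by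
        have : Real.exp (cc ^ 2 / 4 * (0 - s)) *
          ((∫ y, hk (0 - s) (0 - y) * -dx v e s y) - τ * ∫ y, hk (0 - s) (0 - y) * vt s y) =
          -dx v e 0 0 - τ * vt 0 0 := by rw [r1, r2]; ring
        rw [this]; linarith
      have h4 : 0 ≤ ∫ y, hk (0 - s) (0 - y) * (-dx v e s y - τ * vt s y) :=
        integral_nonneg fun y => mul_nonneg (Pool.Agent.H29.TF.hk_nonneg (V := E N) hs0.le _)
          (by linarith [hge s hs.le y])
      rw [e1] at h4 ⊢
      exact le_antisymm (nonpos_of_mul_nonpos_right h3 hE) h4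
    have hae := (integral_eq_zero_iff_of_nonneg (fun y => mul_nonneg
      (Pool.Agent.H29.TF.hk_nonneg (V := E N) hs0.le _) (by linarith [hge s hs.le y])) hi).1 hz
    have hcont : Continuous (fun y => hk (0 - s) (0 - y) * (-dx v e s y - τ * vt s y)) :=
      hkc.mul (hc1.sub (hc2.const_mul τ))
    have hall := (hcont.ae_eq_iff_eq volume continuous_zero).1 hae
    intro x
    have h5 : hk (0 - s) (0 - x) * (-dx v e s x - τ * vt s x) = 0 := congrFun hall x
    have h6 := (Pool.Agent.H29.TF.hk_pos (V := E N) hs0 (0 - x)).ne'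
    rcases mul_eq_zero.1 h5 with h | h
    · exact absurd h h6
    · linarith
  intro t ht x
  rcases ht.lt_or_eq with h | rfl
  · exact hneg t h x
  · rw [(hrep (-1) 0 (by norm_num) le_rfl x).2, (hv.anct.rep (-1) 0 (by norm_num) le_rfl x).2]
    have e1 : ∫ y, hk (0 - -1) (x - y) * -dx v e (-1) y =
        τ * ∫ y, hk (0 - -1) (x - y) * vt (-1) y := by
      rw [← integral_const_mul]
      refine integral_congr_ae (Eventually.of_forall fun y => ?_)
      show hk (0 - -1) (x - y) * -dx v e (-1) y = τ * (hk (0 - -1) (x - y) * vt (-1) y)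
      rw [hneg (-1) (by norm_num) y]
      ring
    rw [e1]
    ring

theorem ftl (hVAC : T_VAC) (hVLC : T_VLC) (hUPB : T_UPB) (hSEQ : T_SEQ) (hIEU : T_IEU)
    (hFPC : T_FPC) (hKREP : T_KREP) (hKER : T_KER) (hKCV : T_KCV) (hLINU : T_LINU)
    (hGTR : T_GTR) (hGSC : T_GSC) (hGLIM : T_GLIM) (hENTG : T_ENTG) : T_FTL := by
  intro N f K C0 C9 η0 cc hi U u hst hmac hfp hfr hkin hvsl τ hτ0 hτ1 hQ
  have hcc := hmac.cpos
  obtain ⟨cg, hcg, hcgτ⟩ := exists_cg hcc hτ0 hτ1
  obtain ⟨C, hC, hvac⟩ := hVAC N f K C0 C9 η0 cc hi U u hst hmac hfp hfr hkin hvsl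
  obtain ⟨S, θ, γ, g0, hS, hθ, hθ1, hγ, hγ1, hg0, hvlc⟩ := hVLC N cc cg C hcc hcg hC
  obtain ⟨Ce, hCe, c, hc, ρ, hρ, hρ1, hexp⟩ :=
    expb2 hUPB hIEU hFPC hKREP hKER hst hmac hfr hkin hvsl
  obtain ⟨hPt, -, -, CL, hCL⟩ := hLINU N f K U u hst.reac hst.lip hst.sol
  have hfpc := hFPC f K hst.reac hst.lip
  set κ := cc ^ 2 / 4 with hκdef
  have hκ : fp f 0 = κ := by rw [hκdef]; linarith
  have hκK : |κ| ≤ K := hκ ▸ hfpc.1 0
  by_contra hcon
  -- failure
  have hfail : ∀ n : ℕ, ∃ (t : ℝ) (x e : E N), (n : ℝ) + 1 ≤ t ∧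
      NDir U (1 / ((n : ℝ) + 1)) x e ∧ |infDist x U - cc * t| ≤ 1 / ((n : ℝ) + 1) * t ∧
      u t x ≤ 1 / ((n : ℝ) + 1) ∧ -dx u e t x ≤ (τ + 1 / ((n : ℝ) + 1)) * dt u t x ∧
      ¬ (Real.log (dt u t x + -dx u e t x) + g0 / 2 * S ≤
          Gn (pot f u) (fun y => max (dt u (t - S) y + -dx u e (t - S) y) 0) (cc / 2) cc e S t x ∧
        ∫ y, gk (pot f u) t x (t - S) y *
          (u (t - S) y ^ θ * max (dt u (t - S) y + -dx u e (t - S) y) 0) ≤
          u t x ^ θ * (dt u t x + -dx u e t x)) := by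
    intro n
    by_contra h
    push Not at h
    have hn : (0 : ℝ) < (n : ℝ) + 1 := by positivity
    exact hcon ⟨S, θ, g0 / 2, 1 / ((n : ℝ) + 1), 1 / ((n : ℝ) + 1), 1 / ((n : ℝ) + 1),
      (n : ℝ) + 1, hS, hθ, by linarith, by positivity, by positivity, by positivity, hn,
      fun t ht x e h1 h2 h3 h4 => h t x e ht h1 h2 h3 h4⟩
  choose t0 x0 e0 ht0 hnd0 hdist0 hu0 hp0 hbad0 using hfail
  have ht0' : Tendsto t0 atTop atTop :=
    tendsto_atTop_mono ht0 (tendsto_atTop_add_const_right _ _ tendsto_natCast_atTop_atTop)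
  obtain ⟨σ0, e, -, hσ0, he, hee0, -, hat0⟩ := (hSEQ N U cc hst.condC hst.ne hcc).2 t0 x0 e0
    (fun _ => 0) ht0' (fun n => ⟨hnd0 n, hdist0 n⟩) (fun n => by simp)
  have htpos : ∀ n, 0 < t0 n := fun n => lt_of_lt_of_le (by positivity) (ht0 n)
  have h1n : Tendsto (fun n : ℕ => 1 / ((n : ℝ) + 1)) atTop (𝓝 0) :=
    tendsto_one_div_add_atTop_nhds_zero_nat
  have hu0' : Tendsto (fun n => u (t0 n) (x0 n)) atTop (𝓝 0) :=
    squeeze_zero (fun n => (u01 hst.sol (htpos n) _).1) hu0 h1n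
  obtain ⟨σ1, v, vt, hσ1, hv, hv00, Cu, Cd, Ct, hineq, hrep⟩ := hvac (t0 ∘ σ0) (x0 ∘ σ0) e hat0
    (hu0'.comp hσ0.tendsto_atTop)
  set σ := σ0 ∘ σ1 with hσdef
  have hσ : StrictMono σ := hσ0.comp hσ1
  have hσt := hσ.tendsto_atTop
  set T : ℕ → ℝ := fun n => t0 (σ n) with hT
  set X : ℕ → E N := fun n => x0 (σ n) with hX
  set en : ℕ → E N := fun n => e0 (σ n) with hen
  set un : ℕ → ℝ := fun n => u (T n) (X n) with hun
  have htn : Tendsto T atTop atTop := ht0'.comp hσt
  have hat : AtSeq U cc T X e := by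
    obtain ⟨a1, a2⟩ := hat0
    exact ⟨htn, fun η hη => hσ1.tendsto_atTop.eventually (a2 η hη)⟩
  have hunt : Tendsto un atTop (𝓝 0) := hu0'.comp hσt
  have hee : Tendsto en atTop (𝓝 e) := hee0.comp hσ1.tendsto_atTop
  have hen1 : ∀ n, ‖en n‖ = 1 := fun n => (hnd0 (σ n)).1
  -- pointwise convergence
  have hR : ∀ (s : ℝ) (y : E N), s ≤ 0 → 0 < max (-s) ‖y‖ + 1 ∧
      (s, y) ∈ Icc (-(max (-s) ‖y‖ + 1)) 0 ×ˢ closedBall (0 : E N) (max (-s) ‖y‖ + 1) := by
    intro s y hs
    have h1 := le_max_left (-s) ‖y‖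
    have h2 := le_max_right (-s) ‖y‖
    have h3 := norm_nonneg y
    refine ⟨by linarith, ⟨by simp only; linarith, hs⟩, ?_⟩
    rw [mem_closedBall_zero_iff]
    simp only
    linarith
  have cu : ∀ s ≤ 0, ∀ y, Tendsto (fun n => u (T n + s) (X n + y) / un n) atTop
      (𝓝 (v s y)) := fun s hs y => (Cu _ (hR s y hs).1).tendsto_at (hR s y hs).2
  have cd : ∀ h, ∀ s ≤ 0, ∀ y, Tendsto (fun n => dx u h (T n + s) (X n + y) / un n) atTop
      (𝓝 (dx v h s y)) := fun h s hs y => (Cd h _ (hR s y hs).1).tendsto_at (hR s y hs).2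
  have ct : ∀ s ≤ 0, ∀ y, Tendsto (fun n => dt u (T n + s) (X n + y) / un n) atTop
      (𝓝 (vt s y)) := fun s hs y => (Ct _ (hR s y hs).1).tendsto_at (hR s y hs).2
  -- bounds
  have hev := hexp T X e hat hunt
  have hwin : ∀ t : ℝ, ∀ᶠ n in atTop, (1 - ρ) * T n + 2 ≤ T n + t ∧ 0 < T n := by
    intro t
    filter_upwards [htn.eventually_ge_atTop ((2 - t) / ρ), htn.eventually_gt_atTop 0] with n hn hn0
    rw [div_le_iff₀ hρ] at hn
    exact ⟨by nlinarith, hn0⟩
  have hB : ∀ t ≤ 0, ∀ᶠ n in atTop, 0 < un n ∧ 1 < T n + t ∧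
      (∀ y, u (T n + t) (X n + y) ≤ Ce * Real.exp (c * ‖y‖) * un n) ∧
      ∀ y, gr u (T n + t) (X n + y) + |dt u (T n + t) (X n + y)| ≤
        Ce * Real.exp (c * ‖y‖) * un n := by
    intro t ht
    filter_upwards [hev, hwin t] with n hn hn2
    obtain ⟨h1, h2, h3, h4⟩ := hn
    exact ⟨h1, by linarith [hn2.1], fun y => h3 _ ⟨by linarith [hn2.1], by linarith⟩ y,
      fun y => h4 _ ⟨hn2.1, by linarith⟩ y⟩
  have hz : ∀ t ≤ 0, ∀ x, Tendsto (fun n => u (T n + t) (X n + x)) atTop (𝓝 0) := by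
    intro t ht x
    have h1 : Tendsto (fun n => Ce * Real.exp (c * ‖x‖) * un n) atTop
        (𝓝 (Ce * Real.exp (c * ‖x‖) * 0)) := hunt.const_mul _
    rw [mul_zero] at h1
    refine squeeze_zero' ?_ ?_ h1
    · filter_upwards [hB t ht] with n hn using (u01 hst.sol (by linarith [hn.2.1]) _).1
    · filter_upwards [hB t ht] with n hn using hn.2.2.1 x
  have hV1 : ∀ t ≤ 0, ∀ x, Tendsto (fun n => pot f u (T n + t) (X n + x)) atTop (𝓝 κ) := by
    intro t ht x
    have h1 := (hfpc.2.1 0 ⟨le_rfl, zero_le_one⟩).tendsto.comp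
      (tendsto_nhdsWithin_iff.2 ⟨hz t ht x, by
        filter_upwards [hB t ht] with n hn using u01 hst.sol (by linarith [hn.2.1]) _⟩)
    rw [hκ] at h1
    refine h1.congr' ?_
    filter_upwards [hB t ht] with n hn
    unfold pot
    rw [if_pos (by linarith [hn.2.1])]
    rfl
  -- convergence of the derivative in the direction `en`
  have hdxe : ∀ (h : E N) (s : ℝ) (x : E N), |dx u h s x| ≤ gr u s x * ‖h‖ := fun h s x =>
    (fderiv ℝ (u s) x).le_opNorm h
  have cde : ∀ s ≤ 0, ∀ y, Tendsto (fun n => dx u (en n) (T n + s) (X n + y) / un n) atTop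
      (𝓝 (dx v e s y)) := by
    intro s hs y
    have h1 : Tendsto (fun n => dx u (en n - e) (T n + s) (X n + y) / un n) atTop (𝓝 0) := by
      have h2 : Tendsto (fun n => Ce * Real.exp (c * ‖y‖) * ‖en n - e‖) atTop
          (𝓝 (Ce * Real.exp (c * ‖y‖) * 0)) := by
        refine Tendsto.const_mul _ ?_
        exact tendsto_iff_norm_sub_tendsto_zero.1 hee
      rw [mul_zero] at h2
      refine squeeze_zero_norm' ?_ h2
      filter_upwards [hB s hs] with n hn
      rw [norm_div, Real.norm_eq_abs, Real.norm_eq_abs, abs_of_pos hn.1, div_le_iff₀ hn.1]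
      have h3 := hn.2.2.2 y
      have h4 := abs_nonneg (dt u (T n + s) (X n + y))
      calc |dx u (en n - e) (T n + s) (X n + y)| ≤ gr u (T n + s) (X n + y) * ‖en n - e‖ :=
            hdxe _ _ _
        _ ≤ Ce * Real.exp (c * ‖y‖) * un n * ‖en n - e‖ := by gcongr; linarith
        _ = _ := by ring
    have h2 := h1.add (cd e s hs y)
    rw [zero_add] at h2
    refine h2.congr fun n => ?_
    rw [← add_div]
    congr 1
    unfold dx
    rw [← map_add, sub_add_cancel]
  -- the limit is planar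
  have hge : ∀ s ≤ 0, ∀ y, τ * vt s y ≤ -dx v e s y := by
    intro s hs y
    have := lim_eps (g := fun ε => (τ - ε) * vt s y) (by fun_prop) (a := -dx v e s y) (by
      intro ε hε
      obtain ⟨lam, hlam, η, hη, T1, hT1, hq⟩ := hQ ε hε
      have hat' := (hSEQ N U cc hst.condC hst.ne hcc).1 T X e hat (fun _ => s) (fun _ => y)
        (max |s| ‖y‖) (fun n => ⟨le_max_left _ _, le_max_right _ _⟩)
      refine le_of_tendsto_of_tendsto ((ct s hs y).const_mul (τ - ε)) (cd e s hs y).neg ?_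
      filter_upwards [hat'.2 η hη, hat'.1.eventually_ge_atTop T1, hB s hs,
        (hz s hs y).eventually (gt_mem_nhds hlam)] with n h1 h2 h3 h4
      have h5 := hq _ h2 _ e h1.1 h1.2 h4.le
      rw [← mul_div_assoc, ← neg_div]
      exact div_le_div_of_nonneg_right h5 h3.1.le)
    simpa using this
  have hle : -dx v e 0 0 ≤ τ * vt 0 0 := by
    have h1 : Tendsto (fun n => (τ + 1 / (((σ n : ℕ) : ℝ) + 1)) * (dt u (T n + 0) (X n + 0) / un n))
        atTop (𝓝 ((τ + 0) * vt 0 0)) :=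
      ((h1n.comp hσt).const_add τ).mul (ct 0 le_rfl 0)
    rw [add_zero] at h1
    refine le_of_tendsto_of_tendsto (cde 0 le_rfl 0).neg h1 ?_
    filter_upwards [hB 0 le_rfl] with n hn
    rw [← mul_div_assoc, ← neg_div]
    refine div_le_div_of_nonneg_right ?_ hn.1.le
    rw [add_zero, add_zero]
    exact hp0 (σ n)
  have hpl := planarG hv hrep hge hle
  have hvtpos := hv.anct.pos
  have hvpos := hv.anc.pos
  have hcgv : ∀ t ≤ 0, ∀ x, cg * gr v t x ≤ vt t x := by
    intro t ht x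
    have h1 := (hineq t ht x).2.1
    rw [hpl t ht x] at h1
    have h2 := hvtpos t ht x
    refine abs_le_of_sq_le_sq' ?_ h2.le |>.2
    have h3 : cc * gr v t x ^ 2 ≤ τ * vt t x ^ 2 := by nlinarith
    have h4 : cc * (cg * gr v t x) ^ 2 ≤ cc * vt t x ^ 2 :=
      calc cc * (cg * gr v t x) ^ 2 = cg ^ 2 * (cc * gr v t x ^ 2) := by ring
        _ ≤ cg ^ 2 * (τ * vt t x ^ 2) := by gcongr
        _ = (cg ^ 2 * τ) * vt t x ^ 2 := by ring
        _ ≤ cc * vt t x ^ 2 := by gcongr
    exact le_of_mul_le_mul_left h4 hcc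
  obtain ⟨j1, j2, j3, j4⟩ := hvlc v vt hv hcgv
  have hS' : -S ≤ 0 := by linarith
  have hvt00 := hvtpos 0 le_rfl 0
  -- the functions
  set D : ℕ → ℝ := fun n => dt u (T n) (X n) + -dx u (en n) (T n) (X n) with hD
  set h : ℕ → E N → ℝ := fun n y => max (dt u (T n - S) y + -dx u (en n) (T n - S) y) 0 with hh
  set d0 := (1 + τ) * vt 0 0 / 2 with hd0
  have hd0p : 0 < d0 := by rw [hd0]; positivity
  have hDlim : Tendsto (fun n => D n / un n) atTop (𝓝 ((1 + τ) * vt 0 0)) := by
    have h1 := (ct 0 le_rfl 0).add (cde 0 le_rfl 0).neg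
    rw [hpl 0 le_rfl 0] at h1
    have e1 : vt 0 0 + τ * vt 0 0 = (1 + τ) * vt 0 0 := by ring
    rw [e1] at h1
    refine h1.congr fun n => ?_
    rw [add_zero, add_zero, ← neg_div, ← add_div]
  have hDev : ∀ᶠ n in atTop, d0 * un n ≤ D n := by
    have : d0 < (1 + τ) * vt 0 0 := by
      have h1 : 0 < (1 + τ) * vt 0 0 := by positivity
      rw [hd0]; linarith
    filter_upwards [hDlim.eventually (lt_mem_nhds this), hB 0 le_rfl] with n hn hn2
    rw [lt_div_iff₀ hn2.1] at hn
    exact hn.le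
  have hhle : ∀ n, 1 < T n + -S → (∀ y, gr u (T n + -S) (X n + y) +
      |dt u (T n + -S) (X n + y)| ≤ Ce * Real.exp (c * ‖y‖) * un n) →
      ∀ y, h n (X n + y) ≤ Ce * Real.exp (c * ‖y‖) * un n := by
    intro n hn1 hn y
    have h1 := hn y
    have h2 := hdxe (en n) (T n + -S) (X n + y)
    rw [hen1 n, mul_one] at h2
    have h3 := le_abs_self (dt u (T n + -S) (X n + y))
    have h4 := neg_le_abs (dx u (en n) (T n + -S) (X n + y))
    have h5 : 0 ≤ gr u (T n + -S) (X n + y) := norm_nonneg _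
    have h6 := abs_nonneg (dt u (T n + -S) (X n + y))
    refine max_le ?_ (by linarith)
    rw [sub_eq_add_neg]
    linarith
  have hmeas : ∀ n, 1 < T n + -S → Measurable (h n) := by
    intro n hn
    have hTS : 0 < T n - S := by linarith
    have m1 : Continuous (fun y => dt u (T n - S) y) := by
      have : ContinuousOn (fun y : E N => dt u (T n - S) y) univ :=
        hst.sol.sol.cont_dt.comp (f := fun y : E N => (T n - S, y)) (by fun_prop) fun y _ =>
          ⟨hTS, mem_univ _⟩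
      exact continuousOn_univ.1 this
    have m2 : Continuous (fun y => dx u (en n) (T n - S) y) :=
      ((hst.sol.sol.c2 _ hTS).continuous_fderiv (by norm_num)).clm_apply continuous_const
    exact ((m1.add m2.neg).max continuous_const).measurable
  have hbdd : ∀ n, 1 < T n + -S → ∃ M, ∀ y, h n y ≤ M := by
    intro n hn
    refine ⟨2 * |CL|, fun y => ?_⟩
    obtain ⟨h1, h2, -⟩ := hCL (T n - S) (by linarith) y
    have h3 := hdxe (en n) (T n - S) y
    rw [hen1 n, mul_one] at h3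
    have h4 := neg_le_abs (dx u (en n) (T n - S) y)
    have h5 := le_abs_self (dt u (T n - S) y)
    have h6 := le_abs_self CL
    have h7 := abs_nonneg CL
    exact max_le (by linarith) (by linarith)
  have hnn : ∀ n y, 0 ≤ h n y := fun n y => le_max_right _ _
  set hl : E N → ℝ := fun y => vt (-S) y / vt 0 0 with hhl
  have hvtc : Continuous (fun y => vt (-S) y) := by
    have : ContinuousOn (fun y : E N => vt (-S) y) univ :=
      hv.ct.comp (f := fun y : E N => (-S, y)) (by fun_prop) fun y _ =>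
        ⟨by simpa using hS.le, mem_univ _⟩
    exact continuousOn_univ.1 this
  have hlm : Measurable hl := (hvtc.div_const _).measurable
  have hl0 : ∀ y, 0 ≤ hl y := fun y => (div_pos (hvtpos _ hS' y) hvt00).le
  have hlim : ∀ y, Tendsto (fun n => h n (X n + y) / D n) atTop (𝓝 (hl y)) := by
    intro y
    have h1 := (ct (-S) hS' y).add (cde (-S) hS' y).neg
    rw [hpl (-S) hS' y] at h1
    have h2 := h1.max (tendsto_const_nhds (x := (0 : ℝ)))
    have h3 := h2.div hDlim (by positivity)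
    have e1 : max (vt (-S) y + τ * vt (-S) y) 0 / ((1 + τ) * vt 0 0) = hl y := by
      have h4 := hvtpos _ hS' y
      rw [max_eq_left (by positivity), hhl]
      show _ = vt (-S) y / vt 0 0
      have : vt 0 0 ≠ 0 := hvt00.ne'
      have : 1 + τ ≠ 0 := by positivity
      field_simp
    rw [e1] at h3
    refine h3.congr' ?_
    filter_upwards [hB 0 le_rfl, hDev] with n hn hn2
    have hne : un n ≠ 0 := hn.1.ne'
    have hDne : D n ≠ 0 := (lt_of_lt_of_le (mul_pos hd0p hn.1) hn2).ne'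
    have e2 : h n (X n + y) = max (dt u (T n + -S) (X n + y) / un n +
        -(dx u (en n) (T n + -S) (X n + y) / un n)) 0 * un n := by
      show max (dt u (T n - S) (X n + y) + -dx u (en n) (T n - S) (X n + y)) 0 = _
      rw [max_mul_of_nonneg _ _ hn.1.le, zero_mul, ← neg_div, ← add_div,
        div_mul_cancel₀ _ hne, sub_eq_add_neg]
    show _ / (D n / un n) = _
    rw [e2]
    field_simp
  have hd0' : ∀ n, 0 < un n → d0 * un n ≤ D n → ∀ a : ℝ, 0 ≤ a → a * un n ≤ a / d0 * D n := by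
    intro n h1 h2 a ha
    calc a * un n = a / d0 * (d0 * un n) := by field_simp
      _ ≤ a / d0 * D n := by gcongr
  have hone : ∫ y, Real.exp (κ * S) * hk S (0 - y) * hl y = 1 := by
    have h1 := (hv.anct.rep (-S) 0 (by linarith) le_rfl 0).2
    rw [show (0 : ℝ) - -S = S by ring] at h1
    have e1 : ∫ y, Real.exp (κ * S) * hk S (0 - y) * hl y =
        (Real.exp (κ * S) * ∫ y, hk S (0 - y) * vt (-S) y) / vt 0 0 := by
      rw [← integral_const_mul, ← integral_div]
      refine integral_congr_ae (Eventually.of_forall fun y => ?_)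
      show Real.exp (κ * S) * hk S (0 - y) * (vt (-S) y / vt 0 0) =
        Real.exp (κ * S) * (hk S (0 - y) * vt (-S) y) / vt 0 0
      ring
    rw [e1, ← h1, div_self hvt00.ne']
  have hVn : ∀ t ∈ Ioo (-S) 0, ∀ x, Tendsto (fun n => pot f u (T n + t) (X n + x)) atTop (𝓝 κ) :=
    fun t ht x => hV1 t ht.2.le x
  have hnrm : Tendsto (fun n => ∫ y, gk (fun t x => pot f u (T n + t) (X n + x)) 0 0 (0 - S) y *
      ((D n)⁻¹ * h n (X n + y))) atTop (𝓝 1) := by
    rw [← hone]
    refine dc hKER hKCV (K := K) (A := Ce / d0) (c := c) hS hκK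
      (V := fun n t x => pot f u (T n + t) (X n + x))
      (F := fun n y => (D n)⁻¹ * h n (X n + y)) (fun n => pt_shift hPt (T n) (X n)) hVn
      (by positivity) hc ?_ ?_ (fun y => by simpa [div_eq_inv_mul] using hlim y)
    · filter_upwards [hB (-S) hS'] with n hn
      exact (((hmeas n hn.2.1).comp (measurable_const.add measurable_id)).const_mul _)
        |>.aestronglyMeasurable
    · filter_upwards [hB (-S) hS', hDev] with n hn hn2
      intro y
      have hDp : 0 < D n := lt_of_lt_of_le (mul_pos hd0p hn.1) hn2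
      rw [abs_of_nonneg (mul_nonneg (inv_pos.2 hDp).le (hnn n _)), inv_mul_le_iff₀ hDp]
      refine (hhle n hn.2.1 hn.2.2.2 y).trans ?_
      refine (hd0' n hn.1 hn2 (Ce * Real.exp (c * ‖y‖)) (by positivity)).trans (le_of_eq ?_)
      ring
  have hgain : ∀ m e : E N, ‖e‖ = 1 → m = ∫ y, (Real.exp (κ * S) * hk S (0 - y) * hl y) • y →
      g0 * S ≤ -(κ * S) + ‖m‖ ^ 2 / (4 * S) + cc / 2 * (inner ℝ m e + cc * S) := by
    intro m e' he' hm
    refine j4 m e' he' (hm.trans ?_)
    refine integral_congr_ae (Eventually.of_forall fun y => ?_)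
    show (Real.exp (κ * S) * hk S (0 - y) * (vt (-S) y / vt 0 0)) • y =
      (Real.exp (cc ^ 2 / 4 * S) * (hk S y * vt (-S) y) / vt 0 0) • y
    rw [zero_sub, Pool.Agent.H29.TF.hk_neg]
    congr 1
    ring
  -- dichotomy
  have hEv : ∀ᶠ n in atTop, 0 < un n ∧ 1 < T n + -S ∧ d0 * un n ≤ D n ∧
      (∀ y, u (T n + -S) (X n + y) ≤ Ce * Real.exp (c * ‖y‖) * un n) ∧
      (∀ y, h n (X n + y) ≤ Ce * Real.exp (c * ‖y‖) * un n) ∧
      0 < ∫ y, gk (pot f u) (T n) (X n) (T n - S) y * h n y := by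
    filter_upwards [hB (-S) hS', hDev, hnrm.eventually (lt_mem_nhds one_pos)] with n hn hn2 hn3
    have hDp : 0 < D n := lt_of_lt_of_le (mul_pos hd0p hn.1) hn2
    refine ⟨hn.1, hn.2.1, hn2, hn.2.2.1, hhle n hn.2.1 hn.2.2.2, ?_⟩
    rw [(hGTR N (pot f u) (h n) (cc / 2) cc S (T n) (en n) (X n) hS).2]
    have e1 : ∫ y, gk (fun t x => pot f u (T n + t) (X n + x)) 0 0 (0 - S) y *
      ((D n)⁻¹ * h n (X n + y)) = (D n)⁻¹ *
        ∫ y, gk (fun t x => pot f u (T n + t) (X n + x)) 0 0 (0 - S) y * h n (X n + y) := by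
      rw [← integral_const_mul]
      refine integral_congr_ae (Eventually.of_forall fun y => ?_)
      show _ * ((D n)⁻¹ * h n (X n + y)) = (D n)⁻¹ * (_ * h n (X n + y))
      ring
    rw [e1] at hn3
    exact (mul_pos_iff_of_pos_left (inv_pos.2 hDp)).1 hn3
  have hdich : (∃ᶠ n in atTop, ¬ (Real.log (D n) + g0 / 2 * S ≤
      Gn (pot f u) (h n) (cc / 2) cc (en n) S (T n) (X n))) ∨
      (∃ᶠ n in atTop, ¬ (∫ y, gk (pot f u) (T n) (X n) (T n - S) y *
        (u (T n - S) y ^ θ * h n y) ≤ un n ^ θ * D n)) := by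
    rw [← frequently_or_distrib]
    refine (Eventually.of_forall fun n => ?_).frequently
    rw [← not_and_or]
    exact hbad0 (σ n)
  rcases hdich with hfr1 | hfr2
  · -- the gain fails
    obtain ⟨φ, hφ, hφn⟩ := extraction_of_frequently_atTop (hfr1.and_eventually hEv)
    have hφt := hφ.tendsto_atTop
    refine gainA hGTR hGSC hGLIM hENTG (K := K) (κ := κ) (S := S) (β := cc / 2) (cc := cc)
      (g0 := g0) (A := Ce / d0) (c := c) hS hg0 hκK hPt (T := T ∘ φ) (X := X ∘ φ) (en := en ∘ φ)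
      (h := fun n => h (φ n)) (D := D ∘ φ) (e := e) (hl := hl)
      (fun t ht x => (hVn t ht x).comp hφt) (fun n => hmeas _ (hφn n).2.2.1) (fun n y => hnn _ y)
      (fun n => hbdd _ (hφn n).2.2.1)
      (fun n => lt_of_lt_of_le (mul_pos hd0p (hφn n).2.1) (hφn n).2.2.2.1)
      (by positivity) hc ?_ (fun y => (hlim y).comp hφt) hlm hl0
      (fun n => (hφn n).2.2.2.2.2.2) (hnrm.comp hφt) hgain (fun n => hen1 _) (hee.comp hφt) he
      (fun n => (not_le.1 (hφn n).1).le)
    intro n y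
    obtain ⟨-, q1, q2, q3, q4, q5, -⟩ := hφn n
    refine (q5 y).trans ?_
    refine (hd0' (φ n) q1 q3 (Ce * Real.exp (c * ‖y‖)) (by positivity)).trans (le_of_eq ?_)
    show _ = Ce / d0 * Real.exp (c * ‖y‖) * D (φ n)
    ring
  · -- the power does not decrease
    obtain ⟨φ, hφ, hφn⟩ := extraction_of_frequently_atTop (hfr2.and_eventually hEv)
    have hφt := hφ.tendsto_atTop
    have hlimF : ∀ y, Tendsto (fun n => (u (T (φ n) + -S) (X (φ n) + y) / un (φ n)) ^ θ *
        (h (φ n) (X (φ n) + y) / D (φ n))) atTop (𝓝 (v (-S) y ^ θ * hl y)) := by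
      intro y
      exact (((cu (-S) hS' y).comp hφt).rpow_const (Or.inr hθ.le)).mul ((hlim y).comp hφt)
    have hdc := dc hKER hKCV (K := K) (κ := κ) (A := Ce * (Ce / d0)) (c := 2 * c) hS hκK
      (V := fun n t x => pot f u (T (φ n) + t) (X (φ n) + x))
      (F := fun n y => (u (T (φ n) + -S) (X (φ n) + y) / un (φ n)) ^ θ *
        (h (φ n) (X (φ n) + y) / D (φ n)))
      (Fl := fun y => v (-S) y ^ θ * hl y) (fun n => pt_shift hPt _ _)
      (fun t ht x => (hVn t ht x).comp hφt) (by positivity) (by positivity)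
      (Eventually.of_forall fun n => by
        obtain ⟨-, q1, q2, q3, q4, q5, q6⟩ := hφn n
        have m1 : Measurable (fun y => u (T (φ n) + -S) (X (φ n) + y)) :=
          ((hst.sol.sol.c2 _ (by linarith)).continuous.comp
            (continuous_const.add continuous_id)).measurable
        exact (((m1.div_const _).pow_const _).mul (((hmeas _ q2).comp
          (measurable_const.add measurable_id)).div_const _)).aestronglyMeasurable)
      (Eventually.of_forall fun n y => by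
        obtain ⟨-, q1, q2, q3, q4, q5, q6⟩ := hφn n
        have hDp : 0 < D (φ n) := lt_of_lt_of_le (mul_pos hd0p q1) q3
        have hu0 := (u01 hst.sol (show 0 < T (φ n) + -S by linarith) (X (φ n) + y)).1
        have hE : 1 ≤ Real.exp (c * ‖y‖) := Real.one_le_exp (by positivity)
        have hCE : 1 ≤ Ce * Real.exp (c * ‖y‖) := one_le_mul_of_one_le_of_one_le hCe hE
        have a1 : (u (T (φ n) + -S) (X (φ n) + y) / un (φ n)) ^ θ ≤ Ce * Real.exp (c * ‖y‖) := by
          have b1 : u (T (φ n) + -S) (X (φ n) + y) / un (φ n) ≤ Ce * Real.exp (c * ‖y‖) := by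
            rw [div_le_iff₀ q1]; exact q4 y
          calc (u (T (φ n) + -S) (X (φ n) + y) / un (φ n)) ^ θ ≤
                (Ce * Real.exp (c * ‖y‖)) ^ θ :=
                Real.rpow_le_rpow (div_nonneg hu0 q1.le) b1 hθ.le
            _ ≤ (Ce * Real.exp (c * ‖y‖)) ^ (1 : ℝ) :=
                Real.rpow_le_rpow_of_exponent_le hCE hθ1.le
            _ = _ := Real.rpow_one _
        have a2 : h (φ n) (X (φ n) + y) / D (φ n) ≤ Ce / d0 * Real.exp (c * ‖y‖) := by
          rw [div_le_iff₀ hDp]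
          refine (q5 y).trans ((hd0' (φ n) q1 q3 (Ce * Real.exp (c * ‖y‖))
            (by positivity)).trans (le_of_eq ?_))
          ring
        have a3 : 0 ≤ (u (T (φ n) + -S) (X (φ n) + y) / un (φ n)) ^ θ :=
          Real.rpow_nonneg (div_nonneg hu0 q1.le) _
        have a4 : 0 ≤ h (φ n) (X (φ n) + y) / D (φ n) := div_nonneg (hnn _ _) hDp.le
        rw [abs_of_nonneg (mul_nonneg a3 a4)]
        calc _ ≤ Ce * Real.exp (c * ‖y‖) * (Ce / d0 * Real.exp (c * ‖y‖)) :=
              mul_le_mul a1 a2 a4 (by positivity)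
          _ = Ce * (Ce / d0) * (Real.exp (c * ‖y‖) * Real.exp (c * ‖y‖)) := by ring
          _ = Ce * (Ce / d0) * Real.exp (2 * c * ‖y‖) := by
              rw [← Real.exp_add]; congr 2; ring)
      hlimF
    have hge1 : ∀ n, 1 ≤ ∫ y, gk (fun t x => pot f u (T (φ n) + t) (X (φ n) + x)) 0 0 (0 - S) y *
        ((u (T (φ n) + -S) (X (φ n) + y) / un (φ n)) ^ θ *
          (h (φ n) (X (φ n) + y) / D (φ n))) := by
      intro n
      obtain ⟨q0, q1, q2, q3, q4, q5, q6⟩ := hφn n
      have hDp : 0 < D (φ n) := lt_of_lt_of_le (mul_pos hd0p q1) q3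
      have huθ : 0 < un (φ n) ^ θ := Real.rpow_pos_of_pos q1 _
      have h1 := (hGTR N (pot f u) (fun y => u (T (φ n) - S) y ^ θ * h (φ n) y) (cc / 2) cc S
        (T (φ n)) (en (φ n)) (X (φ n)) hS).2
      have h2 := not_le.1 q0
      rw [h1] at h2
      have e1 : ∫ y, gk (fun t x => pot f u (T (φ n) + t) (X (φ n) + x)) 0 0 (0 - S) y *
          ((u (T (φ n) + -S) (X (φ n) + y) / un (φ n)) ^ θ *
            (h (φ n) (X (φ n) + y) / D (φ n))) =
          (∫ y, gk (fun t x => pot f u (T (φ n) + t) (X (φ n) + x)) 0 0 (0 - S) y *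
            (u (T (φ n) - S) (X (φ n) + y) ^ θ * h (φ n) (X (φ n) + y))) /
            (un (φ n) ^ θ * D (φ n)) := by
        rw [← integral_div]
        refine integral_congr_ae (Eventually.of_forall fun y => ?_)
        have hu0 := (u01 hst.sol (show 0 < T (φ n) + -S by linarith) (X (φ n) + y)).1
        simp only
        rw [Real.div_rpow hu0 q1.le, ← sub_eq_add_neg (T (φ n)) S]
        have := huθ.ne'
        have := hDp.ne'
        field_simp
      rw [e1, le_div_iff₀ (mul_pos huθ hDp), one_mul]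
      exact h2.le
    have hlim1 := ge_of_tendsto' hdc hge1
    have hval : ∫ y, Real.exp (κ * S) * hk S (0 - y) * (v (-S) y ^ θ * hl y) ≤ 1 - γ := by
      have e1 : ∫ y, Real.exp (κ * S) * hk S (0 - y) * (v (-S) y ^ θ * hl y) =
          (Real.exp (κ * S) * ∫ y, hk S y * vt (-S) y * v (-S) y ^ θ) / vt 0 0 := by
        rw [← integral_const_mul, ← integral_div]
        refine integral_congr_ae (Eventually.of_forall fun y => ?_)
        show Real.exp (κ * S) * hk S (0 - y) * (v (-S) y ^ θ * (vt (-S) y / vt 0 0)) =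
          Real.exp (κ * S) * (hk S y * vt (-S) y * v (-S) y ^ θ) / vt 0 0
        rw [zero_sub, Pool.Agent.H29.TF.hk_neg]
        ring
      rw [e1, div_le_iff₀ hvt00]
      refine j2.trans (le_of_eq ?_)
      rw [hv00, Real.one_rpow, mul_one]
    linarith

end Pool.Agent.H42.RF.FTL
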