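import Pool.Agent.H84.RF.VACa
import Pool.Agent.H91.RF.TargetsK2

/-!
# MP_609556_an, full answer: module FTL, part a (dominated convergence, gain)
-/

open MeasureTheory Set Filter Topology Metric
open Pool.Agent.H29.TF (hk P)
open Pool.Agent.H91.RD Pool.Agent.H91.RF
open Pool.Agent.H84.RF.VAC

namespace Pool.Agent.H42.RF.FTL

variable {N : ℕ}

theorem exists_cg {cc τ : ℝ} (hcc : 0 < cc) (hτ : 0 ≤ τ) (h : τ * cc < 1) :
    ∃ cg, cc < cg ∧ cg ^ 2 * τ ≤ cc := by
  set x := τ * cc with hx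
  have hx0 : 0 ≤ x := by positivity
  set s := (1 - x) / 3 with hs
  have hs0 : 0 < s := by rw [hs]; linarith
  refine ⟨cc * (1 + s), by nlinarith, ?_⟩
  have h1 : x = 1 - 3 * s := by rw [hs]; ring
  have h2 : x * (1 + s) ^ 2 ≤ 1 := by
    rw [h1]
    have : 0 ≤ s ^ 3 := by positivity
    nlinarith [sq_nonneg s]
  calc (cc * (1 + s)) ^ 2 * τ = cc * (x * (1 + s) ^ 2) := by rw [hx]; ring
    _ ≤ cc * 1 := by gcongr
    _ = cc := mul_one _

/-- dominated convergence for kernels whose potential tends to a constant -/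
theorem dc (hKER : T_KER) (hKCV : T_KCV) {K κ S A c : ℝ} (hS : 0 < S) (hκ : |κ| ≤ K)
    {V : ℕ → ℝ → E N → ℝ} (hPt : ∀ n, Pt K (V n))
    (hV : ∀ t ∈ Ioo (-S) 0, ∀ x, Tendsto (fun n => V n t x) atTop (𝓝 κ))
    {F : ℕ → E N → ℝ} {Fl : E N → ℝ} (hA : 0 ≤ A) (hc : 0 ≤ c)
    (hm : ∀ᶠ n in atTop, AEStronglyMeasurable (F n) volume)
    (hF : ∀ᶠ n in atTop, ∀ y, |F n y| ≤ A * Real.exp (c * ‖y‖))
    (hlim : ∀ y, Tendsto (fun n => F n y) atTop (𝓝 (Fl y))) :
    Tendsto (fun n => ∫ y, gk (V n) 0 0 (0 - S) y * F n y) atTop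
      (𝓝 (∫ y, Real.exp (κ * S) * hk S (0 - y) * Fl y)) := by
  have hS0 : (0 : ℝ) - S < 0 := by linarith
  have hK : 0 < K := (hPt 0).K0
  refine tendsto_integral_filter_of_dominated_convergence
    (fun y => Real.exp (K * S) * (hk S (0 - y) * (A * Real.exp (c * ‖y‖)))) ?_ ?_ ?_ ?_
  · filter_upwards [hm] with n hn
    refine AEStronglyMeasurable.mul ?_ hn
    exact (((hKER N K (V n) (hPt n)).1 (0 - S) 0 hS0).comp
      (f := fun y : E N => ((0 : E N), y)) (by fun_prop)).aestronglyMeasurable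
  · filter_upwards [hF] with n hn
    refine Eventually.of_forall fun y => ?_
    obtain ⟨h1, h2⟩ := (hKER N K (V n) (hPt n)).2.1 (0 - S) 0 hS0 0 y
    rw [show (0 : ℝ) - (0 - S) = S by ring] at h1 h2
    have hk0 := Pool.Agent.H29.TF.hk_nonneg (V := E N) hS.le (0 - y)
    have h3 : 0 ≤ gk (V n) 0 0 (0 - S) y :=
      le_trans (mul_nonneg (Real.exp_pos _).le hk0) h1
    rw [norm_mul, Real.norm_of_nonneg h3, Real.norm_eq_abs, ← mul_assoc]
    exact mul_le_mul h2 (hn y) (abs_nonneg _) (mul_nonneg (Real.exp_pos _).le hk0)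
  · refine Integrable.const_mul ?_ _
    exact int_hk_exp hS c hc (g := fun y => A * Real.exp (c * ‖y‖))
      (by fun_prop) (fun y => by rw [abs_of_nonneg (by positivity)]) hA 0
  · refine Eventually.of_forall fun y => ?_
    have h1 := hKCV N K (0 - S) 0 V (fun _ _ => κ) hPt (pt_const hK hκ) hS0
      (fun r hr x => hV r (by simpa using hr) x) 0 y
    rw [gk_const κ hS0, show (0 : ℝ) - (0 - S) = S by ring] at h1
    exact h1.mul (hlim y)

/-- the contradiction from the failure of the gain -/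
theorem gainA (hGTR : T_GTR) (hGSC : T_GSC) (hGLIM : T_GLIM) (hENTG : T_ENTG)
    {K κ S β cc g0 A c : ℝ} (hS : 0 < S) (hg0 : 0 < g0) (hκ : |κ| ≤ K) {V : ℝ → E N → ℝ}
    (hPt : Pt K V) {T : ℕ → ℝ} {X en : ℕ → E N} {h : ℕ → E N → ℝ} {D : ℕ → ℝ} {e : E N}
    {hl : E N → ℝ}
    (hV : ∀ t ∈ Ioo (-S) 0, ∀ x, Tendsto (fun n => V (T n + t) (X n + x)) atTop (𝓝 κ))
    (hmeas : ∀ n, Measurable (h n)) (hnn : ∀ n y, 0 ≤ h n y) (hbd : ∀ n, ∃ M, ∀ y, h n y ≤ M)
    (hD : ∀ n, 0 < D n) (hA : 0 ≤ A) (hc : 0 ≤ c)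
    (hdom : ∀ n y, h n (X n + y) ≤ A * Real.exp (c * ‖y‖) * D n)
    (hlim : ∀ y, Tendsto (fun n => h n (X n + y) / D n) atTop (𝓝 (hl y)))
    (hlm : Measurable hl) (hl0 : ∀ y, 0 ≤ hl y)
    (hpos : ∀ n, 0 < ∫ y, gk V (T n) (X n) (T n - S) y * h n y)
    (hnrm : Tendsto (fun n => ∫ y, gk (fun t x => V (T n + t) (X n + x)) 0 0 (0 - S) y *
      ((D n)⁻¹ * h n (X n + y))) atTop (𝓝 1))
    (hgain : ∀ m e : E N, ‖e‖ = 1 → m = ∫ y, (Real.exp (κ * S) * hk S (0 - y) * hl y) • y →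
      g0 * S ≤ -(κ * S) + ‖m‖ ^ 2 / (4 * S) + β * (inner ℝ m e + cc * S))
    (hen : ∀ n, ‖en n‖ = 1) (hee : Tendsto en atTop (𝓝 e)) (he : ‖e‖ = 1)
    (hfail : ∀ n, Gn V (h n) β cc (en n) S (T n) (X n) ≤ Real.log (D n) + g0 / 2 * S) :
    False := by
  have hS0 : (0 : ℝ) - S < 0 := by linarith
  have hK : 0 < K := hPt.K0
  have hPn : ∀ n, Pt K (fun t x => V (T n + t) (X n + x)) := fun n => pt_shift hPt (T n) (X n)
  -- scaling and translation
  have hG : ∀ n, Gn (fun t x => V (T n + t) (X n + x)) (fun y => (D n)⁻¹ * h n (X n + y)) β cc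
      (en n) S 0 0 ≤ g0 / 2 * S := by
    intro n
    obtain ⟨h1, h2⟩ := hGTR N V (h n) β cc S (T n) (en n) (X n) hS
    have h3 := hGSC N K (fun t x => V (T n + t) (X n + x)) (fun y => h n (X n + y)) β cc S 0
      (D n)⁻¹ (en n) 0 (hPn n) hS (inv_pos.2 (hD n))
      ((hmeas n).comp (measurable_const.add measurable_id)) (fun y => hnn n _)
      (by obtain ⟨M, hM⟩ := hbd n; exact ⟨M, fun y => hM _⟩) (by rw [← h2]; exact hpos n)
    rw [h3, ← h1, Real.log_inv]
    have := hfail n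
    linarith
  obtain ⟨i1, i2, i3, i4, i5⟩ := hGLIM N K S β cc (g0 / 2 * S)
    (fun n t x => V (T n + t) (X n + x)) (fun _ _ => κ)
    (fun n y => (D n)⁻¹ * h n (X n + y)) hl en e hPn (pt_const hK hκ) hS hV
    (fun n => ⟨((hmeas n).comp (measurable_const.add measurable_id)).const_mul _,
      fun y => mul_nonneg (inv_pos.2 (hD n)).le (hnn n _), by
        obtain ⟨M, hM⟩ := hbd n
        exact ⟨(D n)⁻¹ * M, fun y => mul_le_mul_of_nonneg_left (hM _) (inv_pos.2 (hD n)).le⟩⟩)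
    (fun y => by simpa [div_eq_inv_mul] using hlim y)
    (fun R hR => ⟨A * Real.exp (c * R), Eventually.of_forall fun n y hy => by
      rw [inv_mul_le_iff₀ (hD n)]
      refine (hdom n y).trans ?_
      rw [mul_comm (D n)]
      have := mem_closedBall_zero_iff.1 hy
      have := (hD n).le
      gcongr⟩) hen hee hnrm hG
  have hGl : Gn (fun _ _ => κ) hl β cc e S 0 0 ≤ g0 / 2 * S := by
    refine le_of_forall_pos_le_add fun ε hε => ?_
    obtain ⟨n, hn⟩ := (i5 ε hε).exists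
    linarith [hG n]
  have hgk : ∀ y : E N, gk (fun _ _ => κ) 0 0 (0 - S) y = Real.exp (κ * S) * hk S (0 - y) := by
    intro y
    rw [gk_const κ hS0, show (0 : ℝ) - (0 - S) = S by ring]
  simp_rw [hgk] at i1 i2 i3 i4
  set G : E N → ℝ := fun y => Real.exp (κ * S) * hk S (0 - y) with hGdef
  have hG0 : ∀ y, 0 ≤ G y := fun y => mul_nonneg (Real.exp_pos _).le
    (Pool.Agent.H29.TF.hk_nonneg (V := E N) hS.le (0 - y))
  have hGm : Measurable G := (continuous_const.mul ((Pool.Agent.H29.TF.continuous_hk S).comp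
    (by fun_prop : Continuous fun y : E N => 0 - y))).measurable
  have i2' : ∫ y, G y * hl y = 1 := i2
  have i3' : Integrable (fun y => G y * hl y * ‖y‖ ^ 2) := i3
  have hent := (hENTG N κ S G hl 0 hS hGm hlm (fun y => ⟨hG0 y, le_rfl⟩) hl0 i1
    (by rw [i2']; exact one_pos) i4 (by simpa using i3')).1
  rw [i2'] at hent
  simp only [Real.log_one, zero_sub, div_one, sub_zero] at hent
  -- the mean
  set m : E N := ∫ y, (G y * hl y) • y with hm
  have hint : Integrable (fun y => (G y * hl y) • y) := by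
    have hb : Integrable (fun y => G y * hl y + G y * hl y * ‖y‖ ^ 2) := i1.add i3'
    refine hb.mono' ?_ (Eventually.of_forall fun y => ?_)
    · exact (hGm.mul hlm).aestronglyMeasurable.smul aestronglyMeasurable_id
    · rw [norm_smul, Real.norm_of_nonneg (mul_nonneg (hG0 y) (hl0 y))]
      have h1 : ‖y‖ ≤ 1 + ‖y‖ ^ 2 := by nlinarith [sq_nonneg (‖y‖ - 1), norm_nonneg y]
      have h2 := mul_nonneg (hG0 y) (hl0 y)
      calc G y * hl y * ‖y‖ ≤ G y * hl y * (1 + ‖y‖ ^ 2) := by gcongr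
        _ = _ := by ring
  have hinner : ∀ e' : E N, ∫ y, G y * hl y * inner ℝ y e' = inner ℝ m e' := by
    intro e'
    have h1 := integral_inner (𝕜 := ℝ) hint e'
    rw [← hm, real_inner_comm] at h1
    rw [← h1]
    refine integral_congr_ae (Eventually.of_forall fun y => ?_)
    show G y * hl y * inner ℝ y e' = inner ℝ e' ((G y * hl y) • y)
    rw [inner_smul_right, real_inner_comm]
  simp_rw [hinner] at hent
  have hkey : -(κ * S) + ‖m‖ ^ 2 / (4 * S) ≤ ∫ y, G y * (hl y * Real.log (hl y)) := by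
    rcases eq_or_ne m 0 with h0 | h0
    · have := hent e he
      rw [h0] at this ⊢
      simpa using this
    · have hm0 : ‖m‖ ≠ 0 := norm_ne_zero_iff.2 h0
      have := hent (‖m‖⁻¹ • m) (by rw [norm_smul, norm_inv, norm_norm, inv_mul_cancel₀ hm0])
      rw [inner_smul_right, real_inner_self_eq_norm_sq] at this
      have e2 : ‖m‖⁻¹ * ‖m‖ ^ 2 = ‖m‖ := by field_simp
      rw [e2] at this
      exact this
  have hGn : Gn (fun _ _ => κ) hl β cc e S 0 0 =
      (∫ y, G y * (hl y * Real.log (hl y))) + β * (inner ℝ m e + cc * S) := by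
    unfold Gn Ex
    simp_rw [hgk]
    have e1 : ∫ y, Real.exp (κ * S) * hk S (0 - y) * hl y = 1 := i2'
    rw [e1, div_one, div_one]
    congr 1
    · refine integral_congr_ae (Eventually.of_forall fun y => ?_)
      show Real.exp (κ * S) * hk S (0 - y) * hl y * Real.log (hl y) =
        Real.exp (κ * S) * hk S (0 - y) * (hl y * Real.log (hl y))
      ring
    · congr 2
      rw [← hinner e]
      refine integral_congr_ae (Eventually.of_forall fun y => ?_)
      show Real.exp (κ * S) * hk S (0 - y) * hl y * inner ℝ (y - 0) e =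
        Real.exp (κ * S) * hk S (0 - y) * hl y * inner ℝ y e
      rw [sub_zero]
  have hfin := hgain m e he hm
  rw [hGn] at hGl
  have := mul_pos hg0 hS
  linarith

end Pool.Agent.H42.RF.FTL
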