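import Pool.Agent.H91.RF.TargetsR

/-!
# MP_609556_an, full answer: module SWN (maximal tilt windows are flat)
-/

open MeasureTheory Set Filter Topology Metric
open Pool.Agent.H29.TF (hk P)
open Pool.Agent.H91.RD Pool.Agent.H91.RF

namespace Pool.Agent.H42.RF.SWN

variable {N : ℕ}

theorem ent_cont {f : ℝ → ℝ} {w : ℝ → E N → ℝ} (h : Ent f w) :
    Continuous (fun p : ℝ × E N => w p.1 p.2) := by
  rw [continuous_iff_continuousAt]
  intro p
  exact (h.1 (p.1 - 1)).cont.continuousAt ((isOpen_Ioi.prod isOpen_univ).mem_nhds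
    ⟨by simp, mem_univ _⟩)

/-- a continuous function avoiding an interval of values -/
theorem dichot {w : ℝ → E N → ℝ} (hw : Continuous (fun p : ℝ × E N => w p.1 p.2)) {a b : ℝ}
    (hab : a < b) (hd : ∀ t ≤ 0, ∀ x, w t x ≤ a ∨ w t x = b) :
    (∀ t ≤ 0, ∀ x, w t x ≤ a) ∨ (∀ t ≤ 0, ∀ x, w t x = b) := by
  by_contra hcon
  push Not at hcon
  obtain ⟨⟨t1, ht1, x1, h1⟩, ⟨t2, ht2, x2, h2⟩⟩ := hcon
  have e1 : w t1 x1 = b := (hd t1 ht1 x1).resolve_left (by linarith)
  have e2 : w t2 x2 ≤ a := (hd t2 ht2 x2).resolve_right h2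
  set φ : ℝ → ℝ := fun r => w ((1 - r) * t1 + r * t2) ((1 - r) • x1 + r • x2) with hφ
  have hc : Continuous φ := hw.comp (f := fun r : ℝ => ((1 - r) * t1 + r * t2,
    (1 - r) • x1 + r • x2)) (by fun_prop)
  have h0 : φ 0 = b := by simp [hφ, e1]
  have h1' : φ 1 ≤ a := by simpa [hφ] using e2
  have hmem : (a + b) / 2 ∈ Icc (φ 1) (φ 0) := ⟨by linarith, by linarith⟩
  obtain ⟨r, hr, hrv⟩ := intermediate_value_Icc' (zero_le_one' ℝ) hc.continuousOn hmem
  have hr1 : 0 ≤ 1 - r := by linarith [hr.2]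
  have hr0 : 0 ≤ r := hr.1
  have ht : (1 - r) * t1 + r * t2 ≤ 0 := by
    have q1 : 0 ≤ (1 - r) * (-t1) := mul_nonneg hr1 (by linarith)
    have q2 : 0 ≤ r * (-t2) := mul_nonneg hr0 (by linarith)
    linarith
  rcases hd _ ht ((1 - r) • x1 + r • x2) with h | h
  · have : φ r ≤ a := h
    rw [hrv] at this; linarith
  · have : φ r = b := h
    rw [hrv] at this; linarith

theorem orth_le (L : E N →L[ℝ] ℝ) {h e : E N} (hh : ‖h‖ = 1) (he : ‖e‖ = 1)
    (ho : inner ℝ h e = 0) : L h ^ 2 + L e ^ 2 ≤ ‖L‖ ^ 2 := by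
  set a := L h with ha
  set b := L e with hb
  have h1 : L (a • h + b • e) = a ^ 2 + b ^ 2 := by
    rw [map_add, map_smul, map_smul, smul_eq_mul, smul_eq_mul, ← ha, ← hb]; ring
  have h2 : ‖a • h + b • e‖ ^ 2 = a ^ 2 + b ^ 2 := by
    rw [norm_add_sq_real, norm_smul, norm_smul, hh, he, inner_smul_left, inner_smul_right, ho]
    simp
  have h3 := L.le_opNorm (a • h + b • e)
  rw [h1, Real.norm_eq_abs, abs_of_nonneg (by positivity)] at h3
  have h4 : (a ^ 2 + b ^ 2) ^ 2 ≤ ‖L‖ ^ 2 * (a ^ 2 + b ^ 2) := by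
    calc (a ^ 2 + b ^ 2) ^ 2 ≤ (‖L‖ * ‖a • h + b • e‖) ^ 2 := by gcongr
      _ = ‖L‖ ^ 2 * (a ^ 2 + b ^ 2) := by rw [mul_pow, h2]
  rcases (by positivity : 0 ≤ a ^ 2 + b ^ 2).eq_or_lt with h5 | h5
  · rw [← h5]; positivity
  · have : (a ^ 2 + b ^ 2) * (a ^ 2 + b ^ 2) ≤ ‖L‖ ^ 2 * (a ^ 2 + b ^ 2) := by
      rw [← sq]; exact h4
    exact le_of_mul_le_mul_right this h5

theorem ndir_mono {U : Set (E N)} {η η' : ℝ} (h : η ≤ η') {x e : E N} (hn : NDir U η x e) :
    NDir U η' x e := by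
  obtain ⟨he, ξ, e0, hD, hle⟩ := hn
  exact ⟨he, ξ, e0, hD, hle.trans h⟩

theorem limAt_pt {u : ℝ → E N → ℝ} {tn : ℕ → ℝ} {xn : ℕ → E N} {w : ℝ → E N → ℝ}
    (h : LimAt u tn xn w) (t : ℝ) (x : E N) :
    Tendsto (fun n => u (tn n + t) (xn n + x)) atTop (𝓝 (w t x)) := by
  have hR : 0 < max |t| ‖x‖ + 1 := by
    have := abs_nonneg t
    have := le_max_left |t| ‖x‖
    linarith
  refine (h _ hR).tendsto_at (x := (t, x)) ⟨?_, ?_⟩
  · have h1 := le_max_left |t| ‖x‖
    have h2 := abs_le.1 (show |t| ≤ max |t| ‖x‖ + 1 by linarith)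
    exact h2
  · rw [mem_closedBall_zero_iff]
    have h1 := le_max_right |t| ‖x‖
    show ‖x‖ ≤ _
    linarith

/-- shift of a limit in time -/
theorem limAt_time {u : ℝ → E N → ℝ} {tn : ℕ → ℝ} {xn : ℕ → E N} {w : ℝ → E N → ℝ}
    (h : LimAt u tn xn w) (t0 : ℝ) :
    LimAt u (fun n => tn n + t0) (fun n => xn n + 0) (fun t x => w (t0 + t) (0 + x)) := by
  intro R hR
  have h1 := h (R + |t0|) (by positivity)
  rw [Metric.tendstoUniformlyOn_iff] at h1 ⊢
  intro ε hε
  filter_upwards [h1 ε hε] with n hn p hp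
  have h2 := abs_le.1 (le_refl |t0|)
  have h3 := hn (t0 + p.1, p.2) ⟨⟨by
    have := hp.1.1
    show -(R + |t0|) ≤ t0 + p.1
    linarith, by
    have := hp.1.2
    show t0 + p.1 ≤ R + |t0|
    linarith⟩, by
    have := mem_closedBall_zero_iff.1 hp.2
    rw [mem_closedBall_zero_iff]
    show ‖p.2‖ ≤ R + |t0|
    have := abs_nonneg t0
    linarith⟩
  have e1 : tn n + t0 + p.1 = tn n + (t0 + p.1) := by ring
  show dist (w (t0 + p.1) (0 + p.2)) (u (tn n + t0 + p.1) (xn n + 0 + p.2)) < ε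
  rw [zero_add, add_zero, e1]
  exact h3

/-- at points with small values of `u` the tilt is small -/
theorem tilt_small {U : Set (E N)} {u : ℝ → E N → ℝ} {cc C0 C9 η0 R : ℝ}
    (hfr : Frm U u cc C0 C9 η0) (hvac : VacR U u cc) (hR : 0 < R) {tn : ℕ → ℝ} {xn : ℕ → E N}
    {e h : E N} (hat : AtSeq U cc tn xn e) (hh : ‖h‖ = 1) (ho : inner ℝ h e = 0)
    (hr : Tendsto (fun n => dx u h (tn n) (xn n) / -dx u e (tn n) (xn n)) atTop (𝓝 R))
    (hu : Tendsto (fun n => u (tn n) (xn n)) atTop (𝓝 0)) : False := by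
  set ε := min 1 (R ^ 2 / 6) with hε
  have hε0 : 0 < ε := by rw [hε]; positivity
  have hε1 : ε ≤ 1 := min_le_left _ _
  have hε2 : ε ≤ R ^ 2 / 6 := min_le_right _ _
  obtain ⟨lam, hlam, η, hη, T, hT, hv⟩ := hvac ε hε0
  obtain ⟨T2, hT2, hp⟩ := hfr.pos
  have hev : ∀ᶠ n in atTop, (dx u h (tn n) (xn n) / -dx u e (tn n) (xn n)) ^ 2 ≤ R ^ 2 / 2 := by
    filter_upwards [hat.2 η hη, hat.2 η0 hfr.hη0, hat.1.eventually_ge_atTop T,
      hat.1.eventually_ge_atTop T2, hu.eventually (gt_mem_nhds hlam)] with n h1 h2 h3 h4 h5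
    obtain ⟨-, h6⟩ := hv _ h3 _ e h1.1 h1.2 h5.le
    have h7 := (hp _ h4 _ e h2.1 h2.2).1
    have h8 := orth_le (fderiv ℝ (u (tn n)) (xn n)) hh h1.1.1 ho
    have h9 : dx u h (tn n) (xn n) ^ 2 + (-dx u e (tn n) (xn n)) ^ 2 ≤
        gr u (tn n) (xn n) ^ 2 := by rw [neg_sq]; exact h8
    rw [div_pow, div_le_iff₀ (by positivity)]
    set p := -dx u e (tn n) (xn n) with hpdef
    have h10 : gr u (tn n) (xn n) ^ 2 ≤ ((1 + ε) * p) ^ 2 :=
      pow_le_pow_left₀ (norm_nonneg _) h6 2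
    have h11 : 0 < p ^ 2 := by positivity
    have h12 : ε ^ 2 ≤ ε := by nlinarith
    have h13 : 2 * ε + ε ^ 2 ≤ R ^ 2 / 2 := by linarith
    nlinarith [mul_le_mul_of_nonneg_right h13 h11.le]
  have := le_of_tendsto (hr.pow 2) hev
  have : 0 < R ^ 2 := by positivity
  linarith

/-- case (B) of PLAN is impossible below `b 1` in the pulled case -/
theorem caseB (hSEQ : T_SEQ) (hEXT : T_EXT) (hCONV : T_CONV) {f : ℝ → ℝ} {K : ℝ}
    {U : Set (E N)} {u : ℝ → E N → ℝ} {cc b1 R : ℝ} (hst : Stg f K U u) (hcc : 0 < cc)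
    (hvac : VacR U u cc) (hrea : ReachP f U u cc 0 b1) (hR : 0 < R)
    {tn : ℕ → ℝ} {xn : ℕ → E N} {e n0 : E N} {w : ℝ → E N → ℝ} (hat : AtSeq U cc tn xn e)
    (hE : Ent f w) (hL : LimAt u tn xn w) (hw0 : ∀ x, 0 ≤ w 0 x) (hw1 : ∀ x, w 0 x ≤ b1)
    (hn0 : ‖n0‖ = 1) (hpos : ∀ x, 0 < -dx w e 0 x)
    (hfd : ∀ x, fderiv ℝ (w 0) x = -(gr w 0 x) • (innerSL ℝ n0 : E N →L[ℝ] ℝ))
    (hgr : ∀ x, gr w 0 x = √(1 + R ^ 2) * -dx w e 0 x) : False := by
  obtain ⟨hc2, -, hcv, -⟩ := hCONV N f K U u tn xn w hst.reac hst.lip hst.sol hat.1 hE hL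
  have hdiff : Differentiable ℝ (w 0) := (hc2 0).differentiable (by norm_num)
  have hgpos : ∀ x, 0 < gr w 0 x := fun x => by
    rw [hgr x]
    have := hpos x
    have : 0 < √(1 + R ^ 2) := Real.sqrt_pos.2 (by positivity)
    positivity
  have hn00 : inner ℝ n0 n0 = 1 := by rw [real_inner_self_eq_norm_sq, hn0, one_pow]
  -- the profile
  set g : ℝ → ℝ := fun s => w 0 (s • n0) with hg
  have hgd : ∀ s, HasDerivAt g (-(gr w 0 (s • n0))) s := by
    intro s
    have h1 : HasDerivAt (fun s : ℝ => s • n0) n0 s := by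
      simpa using (hasDerivAt_id s).smul_const n0
    have h2 := (hdiff (s • n0)).hasFDerivAt.comp_hasDerivAt s h1
    rw [hfd (s • n0)] at h2
    have e1 : (-(gr w 0 (s • n0)) • (innerSL ℝ n0 : E N →L[ℝ] ℝ)) n0 = -(gr w 0 (s • n0)) := by
      rw [_root_.smul_apply, innerSL_apply_apply, hn00, smul_eq_mul, mul_one]
    rw [e1] at h2
    exact h2
  have hanti : StrictAnti g := strictAnti_of_deriv_neg fun s => by
    rw [(hgd s).deriv]; linarith [hgpos (s • n0)]
  have hbdd : BddBelow (range g) := ⟨0, by rintro _ ⟨s, rfl⟩; exact hw0 _⟩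
  set W := ⨅ s, g s with hW
  have hlimW : Tendsto g atTop (𝓝 W) := tendsto_atTop_ciInf hanti.antitone hbdd
  have hW0 : 0 ≤ W := le_ciInf fun s => hw0 _
  have hW1 : W < b1 := by
    have h1 : W ≤ g 1 := ciInf_le hbdd 1
    have h2 : g 1 < g 0 := hanti one_pos
    have h3 := hw1 ((0 : ℝ) • n0)
    have h4 : g 0 = w 0 ((0 : ℝ) • n0) := rfl
    linarith
  -- `w 0` is a function of `⟨x, n0⟩`
  have hpl : ∀ x, w 0 x = g (inner ℝ x n0) := by
    intro x
    set s := (inner ℝ x n0 : ℝ) with hs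
    set k := x - s • n0 with hk
    have hk0 : inner ℝ n0 k = 0 := by
      rw [hk, inner_sub_right, inner_smul_right, hn00, real_inner_comm, ← hs]; ring
    have hd : ∀ r : ℝ, HasDerivAt (fun r : ℝ => w 0 (s • n0 + r • k)) 0 r := by
      intro r
      have h1 : HasDerivAt (fun r : ℝ => s • n0 + r • k) k r := by
        simpa using ((hasDerivAt_id r).smul_const k).const_add (s • n0)
      have h2 := (hdiff (s • n0 + r • k)).hasFDerivAt.comp_hasDerivAt r h1
      rw [hfd] at h2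
      have e1 : (-(gr w 0 (s • n0 + r • k)) • (innerSL ℝ n0 : E N →L[ℝ] ℝ)) k = 0 := by
        rw [_root_.smul_apply, innerSL_apply_apply, hk0, smul_zero]
      rw [e1] at h2
      exact h2
    have h3 := is_const_of_deriv_eq_zero (fun r => (hd r).differentiableAt)
      (fun r => (hd r).deriv) 1 0
    simp only [one_smul, zero_smul, add_zero] at h3
    rw [hk, add_sub_cancel] at h3
    exact h3
  rcases hW0.eq_or_lt with hWz | hWp
  · -- the values tend to `0`
    set ε := min 1 (R ^ 2 / 6) with hε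
    have hε0 : 0 < ε := by rw [hε]; positivity
    have hε1 : ε ≤ 1 := min_le_left _ _
    have hε2 : ε ≤ R ^ 2 / 6 := min_le_right _ _
    obtain ⟨lam, hlam, η, hη, T, hT, hv⟩ := hvac ε hε0
    obtain ⟨s, hs⟩ := (hlimW.eventually (gt_mem_nhds (show W < lam by rw [← hWz]; exact hlam))).exists
    set x1 := s • n0 with hx1
    have hat' := (hSEQ N U cc hst.condC hst.ne hcc).1 tn xn e hat (fun _ => 0) (fun _ => x1)
      ‖x1‖ (fun n => ⟨by simp, le_rfl⟩)
    have hul : Tendsto (fun n => u (tn n + 0) (xn n + x1)) atTop (𝓝 (w 0 x1)) := limAt_pt hL 0 x1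
    have hmem : ((0 : ℝ), x1) ∈ Icc (-(‖x1‖ + 1)) (‖x1‖ + 1) ×ˢ closedBall (0 : E N) (‖x1‖ + 1) := by
      have := norm_nonneg x1
      refine ⟨⟨by simp only; linarith, by simp only; linarith⟩, ?_⟩
      rw [mem_closedBall_zero_iff]
      show ‖x1‖ ≤ _
      linarith
    have hfl : Tendsto (fun n => fderiv ℝ (u (tn n + 0)) (xn n + x1)) atTop
        (𝓝 (fderiv ℝ (w 0) x1)) := (hcv (‖x1‖ + 1) (by positivity)).tendsto_at hmem
    have hg1 : Tendsto (fun n => gr u (tn n + 0) (xn n + x1)) atTop (𝓝 (gr w 0 x1)) := hfl.norm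
    have hg2 : Tendsto (fun n => (1 + ε) * -dx u e (tn n + 0) (xn n + x1)) atTop
        (𝓝 ((1 + ε) * -dx w e 0 x1)) := by
      refine (Tendsto.neg ?_).const_mul _
      exact ((ContinuousLinearMap.apply ℝ ℝ e).continuous.tendsto _).comp hfl
    have hle : gr w 0 x1 ≤ (1 + ε) * -dx w e 0 x1 := by
      refine le_of_tendsto_of_tendsto hg1 hg2 ?_
      filter_upwards [hat'.2 η hη, hat'.1.eventually_ge_atTop T,
        hul.eventually (gt_mem_nhds hs)] with n h1 h2 h3
      exact (hv _ h2 _ e h1.1 h1.2 h3.le).2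
    rw [hgr x1] at hle
    have h1 := le_of_mul_le_mul_right hle (hpos x1)
    have h2 : 1 + R ^ 2 ≤ (1 + ε) ^ 2 := by
      rw [← Real.sqrt_le_left (by linarith)]
      exact h1
    have h3 : ε ^ 2 ≤ ε := by nlinarith
    have h4 : 0 < R ^ 2 := by positivity
    nlinarith
  · -- the values tend to a positive number
    have hex : ∀ m : ℕ, ∃ n : ℕ, (m : ℝ) ≤ tn n ∧ NDir U (1 / ((m : ℝ) + 1)) (xn n + (m : ℝ) • n0) e ∧
        |infDist (xn n + (m : ℝ) • n0) U - cc * tn n| ≤ 1 / ((m : ℝ) + 1) * tn n ∧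
        ∀ z, ‖z‖ ≤ m → |u (tn n) (xn n + (m : ℝ) • n0 + z) - w 0 ((m : ℝ) • n0 + z)| <
          1 / ((m : ℝ) + 1) := by
      intro m
      have hm : (0 : ℝ) < 1 / ((m : ℝ) + 1) := by positivity
      have hat' := (hSEQ N U cc hst.condC hst.ne hcc).1 tn xn e hat (fun _ => 0)
        (fun _ => (m : ℝ) • n0) ‖(m : ℝ) • n0‖ (fun n => ⟨by simp, le_rfl⟩)
      have h1 := hL (2 * m + 1) (by positivity)
      rw [Metric.tendstoUniformlyOn_iff] at h1
      obtain ⟨n, hn1, hn2, hn3⟩ := ((hat'.2 _ hm).and ((hat.1.eventually_ge_atTop (m : ℝ)).and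
        (h1 _ hm))).exists
      simp only [add_zero] at hn1
      refine ⟨n, hn2, hn1.1, hn1.2, fun z hz => ?_⟩
      have h2 := hn3 (0, (m : ℝ) • n0 + z) ⟨⟨by simp only; linarith [Nat.cast_nonneg (α := ℝ) m],
        by simp only; positivity⟩, by
          rw [mem_closedBall_zero_iff]
          show ‖(m : ℝ) • n0 + z‖ ≤ _
          refine (norm_add_le _ _).trans ?_
          rw [norm_smul, hn0, mul_one, Real.norm_of_nonneg (Nat.cast_nonneg m)]
          linarith⟩
      rw [Real.dist_eq, abs_sub_comm] at h2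
      simp only [add_zero] at h2
      rw [add_assoc]
      exact h2
    choose ν hν1 hν2 hν3 hν4 using hex
    set t' : ℕ → ℝ := fun m => tn (ν m) with ht'
    set x' : ℕ → E N := fun m => xn (ν m) + (m : ℝ) • n0 with hx'
    have ht'l : Tendsto t' atTop atTop := tendsto_atTop_mono hν1 tendsto_natCast_atTop_atTop
    have hat' : AtSeq U cc t' x' e := by
      refine ⟨ht'l, fun η hη => ?_⟩
      have h1 : ∀ᶠ m : ℕ in atTop, 1 / ((m : ℝ) + 1) < η :=
        tendsto_one_div_add_atTop_nhds_zero_nat.eventually (gt_mem_nhds hη)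
      filter_upwards [h1] with m hm
      refine ⟨ndir_mono hm.le (hν2 m), (hν3 m).trans ?_⟩
      have : 0 ≤ tn (ν m) := (Nat.cast_nonneg m).trans (hν1 m)
      exact mul_le_mul_of_nonneg_right hm.le this
    obtain ⟨σ, w', hσ, hE', hL'⟩ := hEXT N f K U u hst.lip hst.sol t' x' ht'l
    have hat'' : AtSeq U cc (t' ∘ σ) (x' ∘ σ) e :=
      ⟨ht'l.comp hσ.tendsto_atTop, fun η hη => hσ.tendsto_atTop.eventually (hat'.2 η hη)⟩
    have hw' : ∀ z, w' 0 z = W := by
      intro z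
      have h1 : Tendsto (fun m => u (t' (σ m)) (x' (σ m) + z)) atTop (𝓝 (w' 0 z)) := by
        have := limAt_pt hL' 0 z
        simpa using this
      have h2 : Tendsto (fun m : ℕ => w 0 ((m : ℝ) • n0 + z)) atTop (𝓝 W) := by
        have h3 : Tendsto (fun m : ℕ => g ((m : ℝ) + inner ℝ z n0)) atTop (𝓝 W) :=
          hlimW.comp (tendsto_atTop_add_const_right _ _ tendsto_natCast_atTop_atTop)
        refine h3.congr fun m => ?_
        rw [hpl ((m : ℝ) • n0 + z), inner_add_left, real_inner_smul_left, hn00, mul_one]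
      have h3 : Tendsto (fun m : ℕ => u (t' m) (x' m + z) - w 0 ((m : ℝ) • n0 + z)) atTop
          (𝓝 0) := by
        refine squeeze_zero_norm' ?_ tendsto_one_div_add_atTop_nhds_zero_nat
        filter_upwards [eventually_ge_atTop (Nat.ceil ‖z‖)] with m hm
        have h4 : ‖z‖ ≤ m := (Nat.le_ceil _).trans (by exact_mod_cast hm)
        rw [Real.norm_eq_abs]
        exact (hν4 m z h4).le
      have h4 : Tendsto (fun m : ℕ => u (t' m) (x' m + z)) atTop (𝓝 W) := by
        have := h3.add h2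
        rw [zero_add] at this
        refine this.congr fun m => ?_
        ring
      exact tendsto_nhds_unique h1 (h4.comp hσ.tendsto_atTop)
    obtain ⟨z, hz⟩ := hrea _ _ e w' hat'' hE' hL' (by rw [hw' 0]; exact hWp)
      (by rw [hw' 0]; exact hW1) ((W + b1) / 2) (by linarith)
    rw [hw' z] at hz
    linarith

theorem swn (hPLAN : T_PLAN) (hAVD : T_AVD) (hLIMR : T_LIMR) (hSEQ : T_SEQ) (hEXT : T_EXT)
    (hCONV : T_CONV) (hTR : T_TR) : T_SWN := by
  intro N f K U u J b c y i k cc C0 C9 η0 hst hT hik hkJ hcl hmac hfr hkin halt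
  have hcc := hmac.cpos
  have htop : ∀ l, i < l → l ≤ k + 1 → fp f (b l) ≤ 0 := by
    intro l h1 h2
    obtain ⟨j, rfl⟩ : ∃ j, l = j + 1 := ⟨l - 1, by omega⟩
    exact hT.top j (by omega)
  have hnp : ∀ l, i < l → l ≤ k → 4 * fp f (b l) < c l ^ 2 := by
    intro l h1 h2
    have h3 := htop l h1 (by omega)
    rw [hcl l h1.le h2]
    have : 0 < cc ^ 2 := by positivity
    linarith
  -- the bound for the derivative at the limit state
  set κb := if 4 * fp f (b i) < cc ^ 2 then max 0 (fp f (b i)) else 0 with hκb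
  have hκ0 : 0 ≤ κb := by
    rw [hκb]; split_ifs
    · exact le_max_left _ _
    · exact le_rfl
  refine ⟨κb, ?_, ?_⟩
  · have : 0 < cc ^ 2 := by positivity
    rw [hκb]; split_ifs with h
    · rcases max_choice 0 (fp f (b i)) with h1 | h1 <;> rw [h1]
      · linarith
      · exact h
    · linarith
  intro R hR htilt tn xn e h w hat hh ho hr hE hL
  obtain ⟨l1, l2, l3, l4, -, -⟩ := hLIMR N f K cc (b i) (b (k + 1)) C0 C9 η0 U u hst hmac hfr hkin
    tn xn e w hat hE hL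
  have hplan := hPLAN N f K cc (b i) (b (k + 1)) C0 C9 η0 U u hst hmac hfr hkin R hR htilt
    tn xn e h w hat hh ho hr hE hL
  have he : ‖e‖ = 1 := by
    obtain ⟨n, hn⟩ := (hat.2 1 one_pos).exists
    exact hn.1.1
  have hcont := ent_cont hE
  -- a unit vector
  obtain ⟨n1, hn1, hA1, hA2⟩ : ∃ n : E N, ‖n‖ = 1 ∧ (∀ t ≤ 0, ∀ x, fderiv ℝ (w t) x =
      -(gr w t x) • (innerSL ℝ n : E N →L[ℝ] ℝ)) ∧
      ∀ t ≤ 0, ∀ x, cc * √(1 + R ^ 2) * gr w t x ≤ dt w t x := by
    rcases hplan with hA | ⟨-, n, hn, hB⟩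
    · refine ⟨e, he, fun t ht x => ?_, fun t ht x => ?_⟩
      · unfold gr
        rw [hA t ht x, norm_zero, neg_zero, zero_smul]
      · have h1 := l4 t x
        unfold gr
        unfold dx at h1
        rw [hA t ht x] at h1 ⊢
        simpa using h1
    · exact ⟨n, hn, fun t ht x => (hB t ht x).1, fun t ht x => (hB t ht x).2.2⟩
  -- descent
  have hdesc : ∀ m, i + m ≤ k + 1 → (∀ l, k + 1 - m ≤ l → l ≤ k → 4 * fp f (b l) < c l ^ 2) →
      (∃ l, i < l ∧ l ≤ k + 1 ∧ ∀ t ≤ 0, ∀ x, w t x = b l) ∨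
      (∀ t ≤ 0, ∀ x, w t x ≤ b (k + 1 - m)) := by
    intro m
    induction m with
    | zero => intro _ _; exact Or.inr fun t _ x => (l1 t x).2
    | succ m ih =>
      intro h1 h2
      rcases ih (by omega) (fun l h3 h4 => h2 l (by omega) h4) with h3 | h3
      · exact Or.inl h3
      · have e1 : k + 1 - m = (k + 1 - (m + 1)) + 1 := by omega
        set l := k + 1 - (m + 1) with hl
        rw [e1] at h3
        have hlJ : l < J := by omega
        have hcl' : c l = cc := hcl l (by omega) (by omega)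
        have h4 := hAVD N f K U u J b c y hst hT l hlJ (h2 l (by omega) (by omega)) R hR tn xn w n1
          hat.1 hE hL hn1 hA1 (by rw [hcl']; exact hA2) h3
        rcases dichot hcont (hT.lt l hlJ) h4 with h5 | h5
        · exact Or.inr h5
        · exact Or.inl ⟨l + 1, by omega, by omega, h5⟩
  have hdone : (∃ l, i < l ∧ l ≤ k + 1 ∧ ∀ t ≤ 0, ∀ x, w t x = b l) →
      ∃ b', fp f b' ≤ κb ∧ ∀ t ≤ 0, ∀ x, w t x = b' := by
    rintro ⟨l, h1, h2, h3⟩
    exact ⟨b l, (htop l h1 h2).trans hκ0, h3⟩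
  rcases halt with hnpi | ⟨hpi, hi0, hvac, hrea⟩
  · -- not pulled
    rcases hdesc (k + 1 - i) (by omega) (by
      intro l h1 h2
      rcases (show i ≤ l by omega).eq_or_lt with h3 | h3
      · rw [← h3, hcl i le_rfl hik]; exact hnpi
      · exact hnp l h3 h2) with h1 | h1
    · exact hdone h1
    · rw [show k + 1 - (k + 1 - i) = i by omega] at h1
      refine ⟨b i, ?_, fun t ht x => le_antisymm (h1 t ht x) (l1 t x).1⟩
      rw [hκb, if_pos hnpi]
      exact le_max_right _ _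
  · -- pulled
    subst hi0
    have hb0 : b 0 = 0 := hT.b0
    rw [hb0] at hrea
    rcases hdesc k (by omega) (fun l h1 h2 => hnp l (by omega) h2) with h1 | h1
    · exact hdone h1
    rw [show k + 1 - k = 1 by omega] at h1
    have hw0 : ∀ t x, 0 ≤ w t x := fun t x => by have := (l1 t x).1; rwa [hb0] at this
    have hb1 : 0 < b 1 := by have := hT.lt 0 (by omega); rwa [hb0] at this
    rcases hplan with hA | ⟨hpos, n, hn, hB⟩
    · obtain ⟨hc2, -⟩ := hCONV N f K U u tn xn w hst.reac hst.lip hst.sol hat.1 hE hL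
      have hconst : ∀ t ≤ 0, ∀ x, w t x = w t 0 := fun t ht x =>
        is_const_of_fderiv_eq_zero ((hc2 t).differentiable (by norm_num)) (hA t ht) x 0
      have hval : ∀ t ≤ 0, ∀ x, w t x ≤ 0 ∨ w t x = b 1 := by
        intro t ht x
        by_contra hcon
        push Not at hcon
        obtain ⟨h2, h3⟩ := hcon
        have h4 : w t x < b 1 := lt_of_le_of_ne (h1 t ht x) h3
        rw [hconst t ht x] at h2 h4
        have hat' := (hSEQ N U cc hst.condC hst.ne hcc).1 tn xn e hat (fun _ => t) (fun _ => 0)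
          |t| (fun n => ⟨le_rfl, by simp⟩)
        have hE' : Ent f (fun s z => w (t + s) (0 + z)) := by
          refine ⟨fun a => ?_, fun s z => hE.2 _ _⟩
          have := hTR N f (a + t) t 0 w (hE.1 _)
          rwa [add_sub_cancel_right] at this
        have e5 : w (t + 0) (0 + 0) = w t 0 := by rw [add_zero, add_zero]
        obtain ⟨z, hz⟩ := hrea _ _ e _ hat' hE' (limAt_time hL t)
          (show 0 < w (t + 0) (0 + 0) by rw [e5]; exact h2)
          (show w (t + 0) (0 + 0) < b 1 by rw [e5]; exact h4) ((w t 0 + b 1) / 2) (by linarith)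
        have h5 : w (t + 0) (0 + z) = w t 0 := by
          rw [add_zero]; exact hconst t ht _
        have hz' : (w t 0 + b 1) / 2 ≤ w (t + 0) (0 + z) := hz
        rw [h5] at hz'
        linarith
      rcases dichot hcont hb1 hval with h2 | h2
      · exfalso
        refine tilt_small hfr hvac hR hat hh ho hr ?_
        have h3 := limAt_pt hL 0 0
        rw [le_antisymm (h2 0 le_rfl 0) (hw0 0 0)] at h3
        simpa using h3
      · exact hdone ⟨1, by omega, by omega, h2⟩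
    · exfalso
      exact caseB hSEQ hEXT hCONV hst hcc hvac hrea hR hat hE hL (hw0 0) (h1 0 le_rfl) hn
        (hpos 0 le_rfl) (fun x => (hB 0 le_rfl x).1) (fun x => (hB 0 le_rfl x).2.1)

end Pool.Agent.H42.RF.SWN
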